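import Mathlib

/-!
# Graphs with exactly one vertex-colouring edge 3-weighting

For every `m ≥ 1` the disjoint union of `m` triangles is uniquely `{1,2,3}`-weight colourable.
-/

set_option autoImplicit false

namespace Pool.Agent.Results.MP_9e9a14_co.DisjointTriangles

open SimpleGraph Finset

/-- The vertex sum `σ_w(v)`: the sum of the weights of the edges incident with `v`. -/
noncomputable def vsum {V : Type} [Fintype V] (G : SimpleGraph V) (w : Sym2 V → ℝ) (v : V) : ℝ :=
  by classical exact ∑ e ∈ G.incidenceFinset v, w e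

/-- `w` is an edge `S`-weighting of `G` whose vertex sums properly colour `G`
(only the values of `w` on the edges of `G` matter). -/
def ColoursBySums {V : Type} [Fintype V] (S : Set ℝ) (G : SimpleGraph V) (w : Sym2 V → ℝ) : Prop :=
  (∀ e ∈ G.edgeSet, w e ∈ S) ∧ ∀ u v : V, G.Adj u v → vsum G w u ≠ vsum G w v

/-- `G` is uniquely `S`-weight colourable: there is an edge `S`-weighting properly colouring the
vertices by sums, and for any two of them some automorphism of `G` carries one to the other. -/
def UniquelyColourable {V : Type} [Fintype V] (S : Set ℝ) (G : SimpleGraph V) : Prop :=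
  (∃ w, ColoursBySums S G w) ∧ ∀ w w' : Sym2 V → ℝ, ColoursBySums S G w → ColoursBySums S G w' →
    ∃ φ : G ≃g G, ∀ e ∈ G.edgeSet, w' (e.map φ) = w e

/-- The disjoint union of `m` triangles: vertex `(i, a)` is the `a`-th vertex of the `i`-th
triangle. -/
def triangles (m : ℕ) : SimpleGraph (Fin m × Fin 3) where
  Adj x y := x.1 = y.1 ∧ x.2 ≠ y.2
  symm := ⟨fun _ _ h => ⟨h.1.symm, h.2.symm⟩⟩
  loopless := ⟨fun _ h => h.2 rfl⟩

/-- the edge of the `i`-th triangle opposite to the vertex `(i, a)` -/
def opp {m : ℕ} (i : Fin m) (a : Fin 3) : Sym2 (Fin m × Fin 3) := s((i, a + 1), (i, a + 2))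

theorem opp_mem {m : ℕ} (i : Fin m) (a : Fin 3) : opp i a ∈ (triangles m).edgeSet := by
  unfold opp
  rw [mem_edgeSet]
  refine ⟨rfl, ?_⟩
  fin_cases a <;> simp

theorem eq_opp {m : ℕ} (e : Sym2 (Fin m × Fin 3)) (he : e ∈ (triangles m).edgeSet) :
    ∃ i a, e = opp i a := by
  revert he
  refine Sym2.ind (fun x y => ?_) e
  intro he
  rw [mem_edgeSet] at he
  obtain ⟨i, a⟩ := x
  obtain ⟨j, b⟩ := y
  obtain ⟨h1, h2⟩ := he
  simp only at h1 h2
  subst h1
  refine ⟨i, -(a + b), ?_⟩
  unfold opp
  fin_cases a <;> fin_cases b <;> simp_all <;> first | rfl | exact Sym2.eq_swap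

theorem opp_inj {m : ℕ} (i : Fin m) {a b : Fin 3} (h : opp i a = opp i b) : a = b := by
  unfold opp at h
  revert h
  fin_cases a <;> fin_cases b <;> simp [Sym2.eq_iff]

theorem vsum_eq {m : ℕ} (w : Sym2 (Fin m × Fin 3) → ℝ) (i : Fin m) (a : Fin 3) :
    vsum (triangles m) w (i, a) = w (opp i (a + 1)) + w (opp i (a + 2)) := by
  classical
  unfold vsum
  have h : ∀ e, e ∈ (triangles m).incidenceSet (i, a) ↔
      e = opp i (a + 1) ∨ e = opp i (a + 2) := by
    intro e
    constructor
    · rintro ⟨he, hv⟩
      obtain ⟨j, b, rfl⟩ := eq_opp e he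
      unfold opp at hv
      rw [Sym2.mem_iff] at hv
      rcases hv with hv | hv
      · rw [Prod.mk.injEq] at hv
        obtain ⟨rfl, hv⟩ := hv
        right
        rw [hv]
        congr 1
        fin_cases b <;> rfl
      · rw [Prod.mk.injEq] at hv
        obtain ⟨rfl, hv⟩ := hv
        left
        rw [hv]
        congr 1
        fin_cases b <;> rfl
    · rintro (rfl | rfl)
      · refine ⟨opp_mem _ _, ?_⟩
        unfold opp
        rw [Sym2.mem_iff]
        right
        fin_cases a <;> rfl
      · refine ⟨opp_mem _ _, ?_⟩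
        unfold opp
        rw [Sym2.mem_iff]
        left
        fin_cases a <;> rfl
  have hne : opp i (a + 1) ≠ opp i (a + 2) := by
    intro hh
    have := opp_inj i hh
    revert this
    fin_cases a <;> simp
  rw [← Finset.sum_pair (f := w) hne]
  refine Finset.sum_congr ?_ (fun _ _ => rfl)
  ext e
  rw [mem_incidenceFinset, mem_insert, mem_singleton]
  exact h e

/-- the sums are proper exactly when the three weights of every triangle are distinct -/
theorem colours_iff {m : ℕ} (S : Set ℝ) (w : Sym2 (Fin m × Fin 3) → ℝ) :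
    ColoursBySums S (triangles m) w ↔
      (∀ i a, w (opp i a) ∈ S) ∧ ∀ i a b, w (opp i a) = w (opp i b) → a = b := by
  constructor
  · rintro ⟨h1, h2⟩
    refine ⟨fun i a => h1 _ (opp_mem i a), ?_⟩
    intro i a b hab
    by_contra hne
    have h3 := h2 (i, a) (i, b) ⟨rfl, hne⟩
    rw [vsum_eq, vsum_eq] at h3
    apply h3
    revert hab hne
    fin_cases a <;> fin_cases b <;> simp <;> intro hab <;> first | (rw [hab]; done) | (rw [hab]; ring) | (rw [← hab]; ring) | linarith
  · rintro ⟨h1, h2⟩
    refine ⟨?_, ?_⟩
    · intro e he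
      obtain ⟨i, a, rfl⟩ := eq_opp e he
      exact h1 i a
    · rintro ⟨i, a⟩ ⟨j, b⟩ ⟨hij, hab⟩ hs
      simp only at hij hab
      subst hij
      rw [vsum_eq, vsum_eq] at hs
      apply hab
      apply h2 i
      revert hs hab
      fin_cases a <;> fin_cases b <;> simp <;> intro hs <;> linarith

/-- For every `m ≥ 1` the disjoint union of `m` triangles (for `m = 1` this is `K_3`) has an edge
and is uniquely `{1,2,3}`-weight colourable. -/
theorem result : ∀ m : ℕ, 1 ≤ m → (triangles m).edgeSet.Nonempty ∧
    UniquelyColourable ({1, 2, 3} : Set ℝ) (triangles m) := by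
  intro m hm
  refine ⟨⟨opp ⟨0, by omega⟩ 0, opp_mem _ _⟩, ?_, ?_⟩
  · -- existence
    let f : Fin 3 → ℝ := ![1, 2, 3]
    have hf : Function.Injective f := by
      intro a b
      fin_cases a <;> fin_cases b <;> simp [f]
    let w : Sym2 (Fin m × Fin 3) → ℝ := Sym2.lift ⟨fun x y => f (-(x.2 + y.2)), by
      intro x y
      show f (-(x.2 + y.2)) = f (-(y.2 + x.2))
      rw [add_comm]⟩
    have hw : ∀ i a, w (opp i a) = f a := by
      intro i a
      simp only [w, opp, Sym2.lift_mk]
      congr 1
      fin_cases a <;> rfl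
    refine ⟨w, (colours_iff _ _).mpr ⟨?_, ?_⟩⟩
    · intro i a
      rw [hw]
      fin_cases a <;> simp [f]
    · intro i a b h
      rw [hw, hw] at h
      exact hf h
  · intro w w' hw hw'
    obtain ⟨h1, h2⟩ := (colours_iff _ _).mp hw
    obtain ⟨h1', h2'⟩ := (colours_iff _ _).mp hw'
    let S : Finset ℝ := {1, 2, 3}
    have hS : S.card = 3 := by
      simp only [S]
      rw [card_insert_of_notMem, card_insert_of_notMem, card_singleton] <;> norm_num
    have hmem : ∀ x : ℝ, x ∈ ({1, 2, 3} : Set ℝ) → x ∈ S := by
      intro x hx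
      simpa [S] using hx
    have hbij : ∀ (u : Sym2 (Fin m × Fin 3) → ℝ) (hu : ∀ i a, u (opp i a) ∈ ({1, 2, 3} : Set ℝ)),
        (∀ i a b, u (opp i a) = u (opp i b) → a = b) → ∀ i,
        Function.Bijective (fun a : Fin 3 => (⟨u (opp i a), hmem _ (hu i a)⟩ : S)) := by
      intro u hu hinj i
      rw [Fintype.bijective_iff_injective_and_card]
      refine ⟨?_, by simp [hS]⟩
      intro a b hab
      exact hinj i a b (congrArg Subtype.val hab)
    let p : Fin m → (Fin 3 ≃ Fin 3) := fun i =>
      (Equiv.ofBijective _ (hbij w h1 h2 i)).trans (Equiv.ofBijective _ (hbij w' h1' h2' i)).symm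
    have hp : ∀ i a, w' (opp i (p i a)) = w (opp i a) := by
      intro i a
      have h3 := (Equiv.ofBijective _ (hbij w' h1' h2' i)).apply_symm_apply
        ((Equiv.ofBijective _ (hbij w h1 h2 i)) a)
      exact congrArg Subtype.val h3
    let φ : triangles m ≃g triangles m :=
      { toFun := fun x => (x.1, p x.1 x.2)
        invFun := fun x => (x.1, (p x.1).symm x.2)
        left_inv := fun x => by simp
        right_inv := fun x => by simp
        map_rel_iff' := by
          intro x y
          obtain ⟨i, a⟩ := x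
          obtain ⟨j, b⟩ := y
          show (i = j ∧ p i a ≠ p j b) ↔ (i = j ∧ a ≠ b)
          constructor
          · rintro ⟨rfl, h⟩
            exact ⟨rfl, fun hab => h (by rw [hab])⟩
          · rintro ⟨rfl, h⟩
            exact ⟨rfl, fun hab => h ((p i).injective hab)⟩ }
    refine ⟨φ, ?_⟩
    intro e he
    obtain ⟨i, a, rfl⟩ := eq_opp e he
    have hmap : (opp i a).map φ = opp i (p i a) := by
      have he2 : (opp i a).map φ = s((i, p i (a + 1)), (i, p i (a + 2))) := by
        simp only [opp, Sym2.map_mk]
        rfl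
      rw [he2]
      unfold opp
      have n1 : p i (a + 1) ≠ p i a := fun h => by
        have := (p i).injective h
        revert this
        fin_cases a <;> simp
      have n2 : p i (a + 2) ≠ p i a := fun h => by
        have := (p i).injective h
        revert this
        fin_cases a <;> simp
      have n3 : p i (a + 1) ≠ p i (a + 2) := fun h => by
        have := (p i).injective h
        revert this
        fin_cases a <;> simp
      generalize p i (a + 1) = x at n1 n2 n3 ⊢
      generalize p i (a + 2) = y at n1 n2 n3 ⊢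
      generalize p i a = z at n1 n2 n3 ⊢
      revert n1 n2 n3
      fin_cases x <;> fin_cases y <;> fin_cases z <;> simp [Sym2.eq_iff]
    rw [hmap, hp]

end Pool.Agent.Results.MP_9e9a14_co.DisjointTriangles
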